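import Pool.Agent.MP_542436_nt.H5.Defs

set_option autoImplicit false

namespace Pool.Agent.MP_542436_nt.H20

open Polynomial Pool.Agent.MP_542436_nt.H5

theorem expand_aeval {A : Type*} [CommRing A] [Algebra ℤ A] (v : Fin 2 ⊕ Fin 2 → A) (F : MP) :
    MvPolynomial.aeval v F = ∑ d ∈ F.support, ((F.coeff d : ℤ) : A) *
      (v (Sum.inl 0) ^ d (Sum.inl 0) * v (Sum.inl 1) ^ d (Sum.inl 1)) *
      (v (Sum.inr 0) ^ d (Sum.inr 0) * v (Sum.inr 1) ^ d (Sum.inr 1)) := by
  rw [MvPolynomial.aeval_def, MvPolynomial.eval₂_eq']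
  refine Finset.sum_congr rfl fun d _ => ?_
  rw [Fintype.prod_sum_type, Fin.prod_univ_two, Fin.prod_univ_two, eq_intCast]
  ring

theorem weight_eq {F : MP} {q r : ℕ} (h : BiHom F q r) {d : Fin 2 ⊕ Fin 2 →₀ ℕ}
    (hd : d ∈ F.support) :
    d (Sum.inl 0) + d (Sum.inl 1) = q ∧ d (Sum.inr 0) + d (Sum.inr 1) = r := by
  have h1 := h (MvPolynomial.mem_support_iff.mp hd)
  rw [Finsupp.weight_apply, Finsupp.sum_fintype _ _ (by simp), Fintype.sum_sum_type,
    Fin.sum_univ_two, Fin.sum_univ_two] at h1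
  simp only [wt, Sum.elim_inl, Sum.elim_inr, Prod.smul_mk, smul_eq_mul, mul_one, mul_zero,
    Prod.mk_add_mk, add_zero, zero_add, Prod.mk.injEq] at h1
  exact h1

theorem ev_eq (F : MP) (s t : ℤ × ℤ) :
    ev F s t = ∑ d ∈ F.support, F.coeff d *
      (s.1 ^ d (Sum.inl 0) * s.2 ^ d (Sum.inl 1)) *
      (t.1 ^ d (Sum.inr 0) * t.2 ^ d (Sum.inr 1)) := by
  have := expand_aeval (A := ℤ) (Sum.elim ![s.1, s.2] ![t.1, t.2]) F
  rw [MvPolynomial.aeval_eq_eval] at this
  simpa [ev] using this

theorem gt_eq (F : MP) (s : ℤ × ℤ) :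
    gt F s = ∑ d ∈ F.support, monomial (d (Sum.inr 0))
      (F.coeff d * (s.1 ^ d (Sum.inl 0) * s.2 ^ d (Sum.inl 1))) := by
  rw [gt, expand_aeval]
  refine Finset.sum_congr rfl fun d _ => ?_
  rw [← C_mul_X_pow_eq_monomial]
  simp

theorem gt_coeff (F : MP) (s : ℤ × ℤ) (k : ℕ) :
    (gt F s).coeff k = ∑ d ∈ F.support, if d (Sum.inr 0) = k then
      F.coeff d * (s.1 ^ d (Sum.inl 0) * s.2 ^ d (Sum.inl 1)) else 0 := by
  rw [gt_eq, finsetSum_coeff]
  simp only [coeff_monomial]

theorem abs_mon {a b : ℤ} {A : ℕ} (ha : |a| ≤ A) (hb : |b| ≤ A) (i j : ℕ) :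
    |a ^ i * b ^ j| ≤ (A : ℤ) ^ (i + j) := by
  rw [abs_mul, abs_pow, abs_pow, pow_add]
  gcongr

theorem basic : BasicStmt := by
  intro F q r h
  have h2 : ∀ s t, hv (gt F s) r t = ev F s t := by
    intro s t
    rw [ev_eq, hv]
    simp only [gt_coeff, Finset.sum_mul]
    rw [Finset.sum_comm]
    refine Finset.sum_congr rfl fun d hd => ?_
    obtain ⟨-, hw⟩ := weight_eq h hd
    rw [Finset.sum_eq_single (d (Sum.inr 0))]
    · rw [if_pos rfl, show r - d (Sum.inr 0) = d (Sum.inr 1) by omega]
      ring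
    · intro k _ hk
      rw [if_neg (Ne.symm hk)]
      ring
    · intro hk
      exact absurd (Finset.mem_range.mpr (by omega)) hk
  refine ⟨fun s => ?_, h2, fun s => ?_, ?_⟩
  · rw [gt_eq]
    refine natDegree_sum_le_of_forall_le _ _ fun d hd => ?_
    obtain ⟨-, hw⟩ := weight_eq h hd
    exact (natDegree_monomial_le _).trans (by omega)
  · rw [← h2, hv, Finset.sum_range_succ, Finset.sum_eq_zero]
    · simp
    · intro k hk
      have : r - k ≠ 0 := by have := Finset.mem_range.mp hk; omega
      simp [this]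
  · refine ⟨∑ d ∈ F.support, (F.coeff d).natAbs + 1, by omega, fun A s h1 h2 => ?_⟩
    have hK : ∑ d ∈ F.support, |F.coeff d| ≤
        ((∑ d ∈ F.support, (F.coeff d).natAbs + 1 : ℕ) : ℤ) := by
      push_cast
      omega
    refine ⟨fun k => ?_, fun B t h3 h4 => ?_⟩
    · rw [gt_coeff]
      refine (Finset.abs_sum_le_sum_abs _ _).trans ?_
      refine le_trans ?_ (mul_le_mul_of_nonneg_right hK (by positivity))
      rw [Finset.sum_mul]
      refine Finset.sum_le_sum fun d hd => ?_
      obtain ⟨hw, -⟩ := weight_eq h hd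
      split_ifs
      · rw [abs_mul, ← hw]
        exact mul_le_mul_of_nonneg_left (abs_mon h1 h2 _ _) (abs_nonneg _)
      · simp only [abs_zero]
        positivity
    · rw [ev_eq]
      refine (Finset.abs_sum_le_sum_abs _ _).trans ?_
      refine le_trans ?_ (mul_le_mul_of_nonneg_right
        (mul_le_mul_of_nonneg_right hK (by positivity)) (by positivity))
      rw [Finset.sum_mul, Finset.sum_mul]
      refine Finset.sum_le_sum fun d hd => ?_
      obtain ⟨hw, hw'⟩ := weight_eq h hd
      rw [abs_mul, abs_mul (F.coeff d), ← hw, ← hw']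
      have := abs_mon h1 h2 (d (Sum.inl 0)) (d (Sum.inl 1))
      have := abs_mon h3 h4 (d (Sum.inr 0)) (d (Sum.inr 1))
      gcongr

theorem hom_aeval {F : MP} {q r : ℕ} (h : BiHom F q r) (v : Fin 2 ⊕ Fin 2 → MP) (u w : ℕ × ℕ)
    (hu : ∀ i, (v (Sum.inl i)).IsWeightedHomogeneous wt u)
    (hw : ∀ i, (v (Sum.inr i)).IsWeightedHomogeneous wt w) :
    (MvPolynomial.aeval v F).IsWeightedHomogeneous wt (q • u + r • w) := by
  rw [expand_aeval]
  refine MvPolynomial.IsWeightedHomogeneous.sum _ _ _ fun d hd => ?_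
  obtain ⟨h1, h2⟩ := weight_eq h hd
  rw [← h1, ← h2, add_smul, add_smul, mul_assoc]
  exact MvPolynomial.IsWeightedHomogeneous.C_mul
    ((((hu 0).pow _).mul ((hu 1).pow _)).mul (((hw 0).pow _).mul ((hw 1).pow _))) (F.coeff d)

theorem homX (i : Fin 2 ⊕ Fin 2) :
    (MvPolynomial.X i : MP).IsWeightedHomogeneous wt (wt i) :=
  MvPolynomial.isWeightedHomogeneous_X ℤ wt i

/-- The shear substitution. -/
noncomputable def shv (a b : ℤ) : Fin 2 ⊕ Fin 2 → MP :=
  Sum.elim
    ![MvPolynomial.X (Sum.inl 0),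
      MvPolynomial.X (Sum.inl 1) + MvPolynomial.C a * MvPolynomial.X (Sum.inl 0)]
    ![MvPolynomial.X (Sum.inr 0),
      MvPolynomial.X (Sum.inr 1) + MvPolynomial.C b * MvPolynomial.X (Sum.inr 0)]

theorem shv_comp (a b : ℤ) :
    (MvPolynomial.aeval (R := ℤ) (shv a b)).comp (MvPolynomial.aeval (shv (-a) (-b))) =
      AlgHom.id ℤ MP := by
  refine MvPolynomial.algHom_ext fun i => ?_
  rcases i with i | i <;> fin_cases i <;> simp [shv]

theorem sym : SymStmt := by
  refine ⟨⟨MvPolynomial.renameEquiv ℤ (Equiv.sumComm _ _), fun F s t => ?_, fun F q r h => ?_⟩,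
    fun a b => ⟨AlgEquiv.ofAlgHom (MvPolynomial.aeval (shv a b))
      (MvPolynomial.aeval (shv (-a) (-b))) (shv_comp a b)
      (by simpa using shv_comp (-a) (-b)), fun F s t => ?_, fun F q r h => ?_⟩,
    fun n F q r h0 h => ?_⟩
  · simp only [ev, MvPolynomial.renameEquiv_apply, MvPolynomial.eval_rename]
    congr 2
    funext i
    rcases i with i | i <;> rfl
  · have := hom_aeval h (MvPolynomial.X ∘ Equiv.sumComm (Fin 2) (Fin 2)) (0, 1) (1, 0)
      (fun i => homX (Sum.inr i)) (fun i => homX (Sum.inl i))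
    rw [MvPolynomial.renameEquiv_apply, MvPolynomial.rename_eq_aeval]
    simpa [BiHom] using this
  · simp only [ev, AlgEquiv.ofAlgHom_apply]
    rw [← MvPolynomial.aeval_eq_eval, ← MvPolynomial.aeval_eq_eval]
    change ((MvPolynomial.aeval _).comp (MvPolynomial.aeval (shv a b))) F = _
    rw [MvPolynomial.comp_aeval]
    congr 2
    funext i
    rcases i with i | i <;> fin_cases i <;> simp [shv]
  · have := hom_aeval h (shv a b) (1, 0) (0, 1) (fun i => ?_) (fun i => ?_)
    · simpa [BiHom] using this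
    · fin_cases i
      · exact homX (Sum.inl 0)
      · exact (homX (Sum.inl 1)).add ((homX (Sum.inl 0)).C_mul a)
    · fin_cases i
      · exact homX (Sum.inr 0)
      · exact (homX (Sum.inr 1)).add ((homX (Sum.inr 0)).C_mul b)
  · let v : Fin 2 ⊕ Fin 2 → MvPolynomial (Fin 2) ℤ :=
      Sum.elim ![1, MvPolynomial.X 0] ![1, MvPolynomial.X 1]
    have hG : ∀ i, MvPolynomial.aeval v (F i) ≠ 0 := by
      intro i hz
      obtain ⟨d0, hd0⟩ := MvPolynomial.exists_coeff_ne_zero (h0 i)
      have hd0' := MvPolynomial.mem_support_iff.mpr hd0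
      apply hd0
      have e : MvPolynomial.aeval v (F i) = ∑ d ∈ (F i).support, MvPolynomial.monomial
          (Finsupp.single 0 (d (Sum.inl 1)) + Finsupp.single 1 (d (Sum.inr 1)))
          ((F i).coeff d) := by
        rw [expand_aeval]
        refine Finset.sum_congr rfl fun d _ => ?_
        have : (((F i).coeff d : ℤ) : MvPolynomial (Fin 2) ℤ) =
            MvPolynomial.C ((F i).coeff d) := by simp
        rw [this]
        simp [v, MvPolynomial.X_pow_eq_monomial, MvPolynomial.C_mul_monomial,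
          MvPolynomial.monomial_mul, -eq_intCast, -map_intCast]
      have e2 := congrArg (MvPolynomial.coeff
        (Finsupp.single 0 (d0 (Sum.inl 1)) + Finsupp.single 1 (d0 (Sum.inr 1)))) e
      rw [hz, MvPolynomial.coeff_zero, MvPolynomial.coeff_sum, Finset.sum_eq_single d0] at e2
      · rw [MvPolynomial.coeff_monomial, if_pos rfl] at e2
        exact e2.symm
      · intro d hd hne
        rw [MvPolynomial.coeff_monomial, if_neg]
        intro he
        apply hne
        have a1 := DFunLike.congr_fun he 0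
        have a2 := DFunLike.congr_fun he 1
        simp at a1 a2
        obtain ⟨w1, w2⟩ := weight_eq (h i) hd
        obtain ⟨w3, w4⟩ := weight_eq (h i) hd0'
        ext j
        rcases j with j | j <;> fin_cases j <;> simp <;> omega
      · intro hd
        exact absurd hd0' hd
    have hP : ∏ i, MvPolynomial.aeval v (F i) ≠ 0 := Finset.prod_ne_zero_iff.mpr fun i _ => hG i
    by_contra hc
    apply hP
    refine MvPolynomial.funext fun x => ?_
    rw [map_prod, map_zero]
    push Not at hc
    obtain ⟨i, hi⟩ := hc (x 0) (x 1)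
    refine Finset.prod_eq_zero (Finset.mem_univ i) ?_
    rw [← hi, ev, ← MvPolynomial.aeval_eq_eval, ← MvPolynomial.aeval_eq_eval]
    change ((MvPolynomial.aeval _).comp (MvPolynomial.aeval v)) (F i) = _
    rw [MvPolynomial.comp_aeval]
    congr 2
    funext j
    rcases j with j | j <;> fin_cases j <;> simp [v]

theorem res : ResStmt := by
  intro r g h H hg hh hg1 hH cg ch hcop
  refine ⟨resultant g h g.natDegree h.natDegree, ?_, ?_, ?_⟩
  · have := resultant_ne_zero _ _ hcop
    rw [natDegree_map_eq_of_injective (Int.castRingHom ℚ).injective_int,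
      natDegree_map_eq_of_injective (Int.castRingHom ℚ).injective_int, resultant_map_map] at this
    intro h0
    rw [h0, map_zero] at this
    exact this rfl
  · have := Matrix.det_le (A := sylvester g h g.natDegree h.natDegree)
      (abv := AbsoluteValue.abs) (x := H) (fun i j => ?_)
    · rw [AbsoluteValue.abs_apply, Fintype.card_fin, nsmul_eq_mul] at this
      refine this.trans ?_
      have h1 : g.natDegree + h.natDegree ≤ 2 * r := by omega
      have h2 := Nat.factorial_le h1
      have h3 : H ^ (g.natDegree + h.natDegree) ≤ H ^ (2 * r) := pow_le_pow_right₀ hH h1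
      exact mul_le_mul (by exact_mod_cast h2) h3 (by positivity) (by positivity)
    · rw [AbsoluteValue.abs_apply, sylvester, Matrix.of_apply]
      refine Fin.addCases (fun j => ?_) (fun j => ?_) j
      · rw [Fin.addCases_left]
        split_ifs
        · exact ch _
        · simp only [abs_zero]; omega
      · rw [Fin.addCases_right]
        split_ifs
        · exact cg _
        · simp only [abs_zero]; omega
  · obtain ⟨p, q, -, -, e⟩ := exists_mul_add_mul_eq_C_resultant g h le_rfl le_rfl
      (Or.inl (by omega))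
    exact ⟨p, q, by rw [← e]; ring⟩

end Pool.Agent.MP_542436_nt.H20
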